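/-
helper74. MRP, module BRG: the branch vertices.
-/
import Pool.Agent.H74.MRP.Def

set_option autoImplicit false

namespace Pool.MRP

open Finset Pool.MRW
open scoped Classical

/-- BRG -/
theorem t_brg (hPWS : PWSStmt) (hRKG : RKGStmt) (hLVL : LVLStmt) : BRGStmt := by
  intro Ω V _ _ pr tm c l hc hl hN k
  induction k with
  | zero =>
    intro Q _ _ e₀ _
    refine ⟨fun _ => e₀, fun i _ => Or.inl rfl, ?_⟩
    intro i j hij hj
    omega
  | succ k ih =>
    intro Q hQ hsm e₀ hsv
    have hhor : hor l k ≤ hor l (k + 1) := by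
      show hor l k ≤ 4 * l * (hor l k + 1)
      nlinarith
    have hhorR : (hor l k : ℝ) ≤ (hor l (k + 1) : ℝ) := by exact_mod_cast hhor
    have hsm' : 6 * ((hor l k : ℝ) + 1) * c ≤ 1 := by
      refine le_trans ?_ hsm
      refine mul_le_mul_of_nonneg_right ?_ hc.le
      linarith
    obtain ⟨x, z, n, τ, hτ, hTn, hnL, htz, hpwτ, hlow, y, hxy, hyreg, hysv⟩ :=
      hLVL Ω V pr tm c Q hQ l (hor l k + 1) e₀ (by omega) hc (by
        push_cast
        exact hsm') hl hN hsv
    obtain ⟨hG1, hG2, hG3, _⟩ := hRKG Ω V pr tm c Q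
      (reg pr tm Q x z n (hor l k + 1) τ) hQ
    obtain ⟨u, hu1, hu2⟩ := ih (rk (reg pr tm Q x z n (hor l k + 1) τ) Q) hG1 hsm' y
      (by simpa using hysv)
    have hureg : ∀ i, i ≤ k → reg pr tm Q x z n (hor l k + 1) τ (u i) := by
      intro i hi
      rcases hu1 i hi with h | ⟨f, hf⟩
      · rw [h]; exact hyreg
      · exact (hG3 f (u i) hf).2
    have huin : ∀ i, i ≤ k → ∃ f, 0 < Q f (u i) := by
      intro i hi
      rcases hu1 i hi with h | ⟨f, hf⟩
      · rw [h]; exact ⟨x, hxy⟩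
      · exact ⟨f, lt_of_lt_of_le hf (hG2 f (u i))⟩
    have hzin : ∃ f, 0 < Q f z := by
      obtain ⟨_, _, _, _, _, _, _, _, h9⟩ := hPWS Ω Q hQ.nn hQ.row
      obtain ⟨m, rfl⟩ : ∃ m, n = m + 1 := ⟨n - 1, by omega⟩
      exact h9 m x z (by rw [hpwτ]; exact hτ)
    have hnhor : n ≤ hor l (k + 1) := hnL
    refine ⟨fun i => if i ≤ k then u i else z, ?_, ?_⟩
    · intro i _
      by_cases hi : i ≤ k
      · simp only [hi, if_true]
        exact Or.inr (huin i hi)
      · simp only [hi, if_false]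
        exact Or.inr hzin
    · intro i j hij hj
      have hi : i ≤ k := by omega
      by_cases hjk : j ≤ k
      · simp only [hi, hjk, if_true]
        obtain ⟨h1, Q', m, h2, h3, h4, h5, h6, h7⟩ := hu2 i j hij hjk
        refine ⟨h1, Q', m, ?_, h3, le_trans h4 hhor, h5, h6, h7⟩
        intro a b
        exact ⟨(h2 a b).1, le_trans (h2 a b).2 (hG2 a b)⟩
      · simp only [hi, hjk, if_true, if_false]
        have hr := hureg i hi
        obtain ⟨h1, h2, h3, h4⟩ := hr
        refine ⟨h3, Q, tm x + n - tm (u i), fun a b => ⟨hQ.nn a b, le_refl _⟩, ?_, ?_, ?_, ?_, ?_⟩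
        · omega
        · omega
        · omega
        · exact lt_of_lt_of_le (by linarith) h4
        · intro r hr0 hr1 g
          exact hlow (u i) (hureg i hi) (tm x + n - tm (u i)) (by omega) r hr0 hr1 g

end Pool.MRP
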