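/-
helper74. MRP, module CRP: from bridges to the subdivision.
-/
import Pool.Agent.H74.MRP.Def
import Pool.Agent.H74.MRW.COR

set_option autoImplicit false

namespace Pool.MRP

open Finset Pool.MRW
open scoped Classical

/-- CRP -/
theorem t_crp (hLIN : LINStmt) (hWEX : WEXStmt) (hRKG : RKGStmt)
    (hHTV : HTVStmt) (hENF : ENFStmt) (hGRD : GRDStmt) (hEXT : EXTStmt) : CRPStmt := by
  intro Ω V _ _ pr tm c Q A hQ hA k H u hk hc hsum hu
  -- index type
  let ι := {e : Fin k × Fin k // e.1 < e.2}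
  have hcard : (Fintype.card ι : ℝ) ≤ (k : ℝ) ^ 2 := by
    have h := Fintype.card_subtype_le (fun e : Fin k × Fin k => e.1 < e.2)
    rw [Fintype.card_prod, Fintype.card_fin] at h
    have h' : ((Fintype.card ι : ℕ) : ℝ) ≤ ((k * k : ℕ) : ℝ) := by exact_mod_cast h
    rw [Nat.cast_mul] at h'
    rw [pow_two]; exact h'
  have hB : ∀ e : ι, Brd tm c Q H (u e.1.1) (u e.1.2) := fun e =>
    (hu e.1.1 e.1.2 e.2 e.1.2.2).2
  choose Q' nn hQ' htm hnH hn0 hpos hhit using hB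
  have hGr : ∀ e, Gr pr tm c (Q' e) := fun e =>
    (hRKG Ω V pr tm c Q (fun _ => True) hQ).2.2.2 (Q' e) (hQ' e)
  have hQnn : ∀ e a b, 0 ≤ Q' e a b := fun e a b => (hQ' e a b).1
  let y : Fin k → V := fun i => pr (u i)
  have hy : Function.Injective y := by
    intro i j hij
    by_contra hne
    rcases lt_or_gt_of_ne hne with h | h
    · exact (hu i j h j.2).1 hij
    · exact (hu j i h i.2).1 hij.symm
  let Gv : ι → ℝ := fun e => pw (Q' e) (nn e) (u e.1.1) (u e.1.2)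
  have hG : ∀ e : ι, 0 < Gv e := fun e => hpos e
  let Lf : ι → ((ℕ → V) → ℝ) → ℝ := fun e F =>
    W (Q' e) (nn e) (u e.1.1) (u e.1.2) (fun p => F (fun s => pr (p s))) / Gv e
  have hW0 : ∀ (e : ι) (n : ℕ) (x z : Ω), W (Q' e) n x z (fun _ => 0) = 0 := by
    intro e n x z
    have := (hLIN Ω (Q' e) n x z).2.1 0 (fun _ => 0)
    simpa using this
  have hadd : ∀ e F F', Lf e (fun p => F p + F' p) = Lf e F + Lf e F' := by
    intro e F F'
    show W (Q' e) (nn e) (u e.1.1) (u e.1.2)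
        (fun p => F (fun s => pr (p s)) + F' (fun s => pr (p s))) / Gv e =
      W (Q' e) (nn e) (u e.1.1) (u e.1.2) (fun p => F (fun s => pr (p s))) / Gv e +
      W (Q' e) (nn e) (u e.1.1) (u e.1.2) (fun p => F' (fun s => pr (p s))) / Gv e
    rw [← add_div, ← (hLIN Ω (Q' e) (nn e) (u e.1.1) (u e.1.2)).1]
  have hmul : ∀ e (a : ℝ) F, Lf e (fun p => a * F p) = a * Lf e F := by
    intro e a F
    show W (Q' e) (nn e) (u e.1.1) (u e.1.2) (fun p => a * F (fun s => pr (p s))) / Gv e =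
      a * (W (Q' e) (nn e) (u e.1.1) (u e.1.2) (fun p => F (fun s => pr (p s))) / Gv e)
    rw [← mul_div_assoc, ← (hLIN Ω (Q' e) (nn e) (u e.1.1) (u e.1.2)).2.1]
  have hnn : ∀ e F, (∀ p, 0 ≤ F p) → 0 ≤ Lf e F := by
    intro e F hF
    have h := (hLIN Ω (Q' e) (nn e) (u e.1.1) (u e.1.2)).2.2.2.1 (hQnn e) (fun _ => 0)
      (fun p => F (fun s => pr (p s))) (fun p _ _ => hF _)
    rw [hW0] at h
    exact div_nonneg h (hG e).le
  let S' : ι → (ℕ → V) → Prop := fun e p => p 0 = y e.1.1 ∧ p (nn e) = y e.1.2 ∧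
    ∀ s, s < nn e → A (p s) (p (s + 1))
  have hex : ∀ e F, (∀ p, 0 ≤ F p) → Lf e F < 1 → ∃ p, S' e p ∧ F p < 1 := by
    intro e F hF hlt
    have h : W (Q' e) (nn e) (u e.1.1) (u e.1.2) (fun p => F (fun s => pr (p s))) <
        W (Q' e) (nn e) (u e.1.1) (u e.1.2) (fun _ => 1) := by
      have : W (Q' e) (nn e) (u e.1.1) (u e.1.2) (fun p => F (fun s => pr (p s))) < Gv e := by
        rwa [div_lt_one (hG e)] at hlt
      exact this
    obtain ⟨p, hp0, hp1, hp2, hp3⟩ := hWEX Ω (Q' e) (nn e) (u e.1.1) (u e.1.2)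
      (fun p => F (fun s => pr (p s))) (fun _ => 1) (hQnn e) h
    refine ⟨fun s => pr (p s), ⟨?_, ?_, ?_⟩, hp3⟩
    · show pr (p 0) = pr (u e.1.1)
      rw [hp0]
    · show pr (p (nn e)) = pr (u e.1.2)
      rw [hp1]
    · intro s hs
      exact hA _ _ (lt_of_lt_of_le (hp2 s hs) (hQ' e _ _).2)
  -- hitting
  let h : ι → ℕ → V → ℝ := fun e s w => Lf e (fun p => if p s = w then 1 else 0)
  have hh0 : ∀ e s w, 0 ≤ h e s w := by
    intro e s w
    refine hnn e (fun p => if p s = w then 1 else 0) ?_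
    intro p
    show (0 : ℝ) ≤ if p s = w then 1 else 0
    split_ifs
    · exact zero_le_one
    · exact le_refl _
  have hh1 : ∀ e s, ∑ w, h e s w ≤ 1 := by
    intro e s
    have : ∑ w, h e s w = 1 := by
      show ∑ w, (W (Q' e) (nn e) (u e.1.1) (u e.1.2)
        (fun p => (if pr (p s) = w then 1 else 0)) / Gv e) = 1
      rw [← sum_div, ← (hLIN Ω (Q' e) (nn e) (u e.1.1) (u e.1.2)).2.2.1]
      have hfun : (fun p : ℕ → Ω => ∑ w, (if pr (p s) = w then (1:ℝ) else 0)) = fun _ => 1 := by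
        funext p
        rw [sum_ite_eq univ (pr (p s)) (fun _ => (1:ℝ))]
        simp
      rw [hfun]
      exact div_self (hG e).ne'
    exact this.le
  have hhb : ∀ e s w, 0 < s → s < nn e → h e s w ≤ 4 * c := by
    intro e s w hs0 hs
    have := hHTV Ω V pr tm c (Q' e) (hGr e) (nn e) s (u e.1.1) (u e.1.2) w (4 * c) hs0 hs
      (by linarith) (fun g => hhit e s hs0 hs g)
    show W (Q' e) (nn e) (u e.1.1) (u e.1.2)
        (fun p => (if pr (p s) = w then 1 else 0)) / Gv e ≤ _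
    rw [div_le_iff₀ (hG e)]
    exact this
  let Fb : ι → Finset V := fun e => (univ.filter (fun m : Fin k => m ≠ e.1.1 ∧ m ≠ e.1.2)).image y
  have hFb : ∀ e, (Fb e).card ≤ k := by
    intro e
    refine le_trans card_image_le (le_trans (card_le_univ _) ?_)
    rw [Fintype.card_fin]
  obtain ⟨p, hp1, hp2, hp3⟩ := hGRD ι V S' Lf nn Fb k ((H : ℝ) ^ 2 * (4 * c)) hadd hmul hnn hex hFb
    (fun e e' => (hENF V H (nn e) (nn e') (4 * c) (h e) (h e') (by linarith) (hh0 e) (hh0 e')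
      (hh1 e) (hh1 e') (hhb e) (hnH e) (hnH e')).1)
    (fun e w => (hENF V H (nn e) (nn e) (4 * c) (h e) (h e) (by linarith) (hh0 e) (hh0 e)
      (hh1 e) (hh1 e) (hhb e) (hnH e) (hnH e)).2 w)
    (by
      have h0 : (0 : ℝ) ≤ Fintype.card ι := Nat.cast_nonneg _
      have hk1 : (1 : ℝ) ≤ k := by exact_mod_cast hk
      have h2' : (Fintype.card ι : ℝ) ^ 2 ≤ ((k : ℝ) ^ 2) ^ 2 := pow_le_pow_left₀ h0 hcard 2
      have hη : 0 ≤ (H : ℝ) ^ 2 * (4 * c) := by positivity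
      have h3 : 4 * (Fintype.card ι : ℝ) ^ 2 * ((H : ℝ) ^ 2 * (4 * c)) ≤
          4 * ((k : ℝ) ^ 2) ^ 2 * ((H : ℝ) ^ 2 * (4 * c)) :=
        mul_le_mul_of_nonneg_right (by linarith) hη
      have h4 : (k : ℝ) ≤ (k : ℝ) ^ 4 := by
        calc (k : ℝ) = (k : ℝ) ^ 1 := (pow_one _).symm
          _ ≤ (k : ℝ) ^ 4 := pow_le_pow_right₀ hk1 (by norm_num)
      have h5 : (k : ℝ) * ((H : ℝ) ^ 2 * (4 * c)) ≤ (k : ℝ) ^ 4 * ((H : ℝ) ^ 2 * (4 * c)) :=
        mul_le_mul_of_nonneg_right h4 hη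
      have h6 : 4 * ((k : ℝ) ^ 2) ^ 2 * ((H : ℝ) ^ 2 * (4 * c)) +
          (k : ℝ) ^ 4 * ((H : ℝ) ^ 2 * (4 * c)) =
          20 / 27 * (27 * (k : ℝ) ^ 4 * (H : ℝ) ^ 2 * c) := by ring
      have h7 : 20 / 27 * (27 * (k : ℝ) ^ 4 * (H : ℝ) ^ 2 * c) ≤ 20 / 27 * 1 :=
        mul_le_mul_of_nonneg_left hsum (by norm_num)
      linarith)
  -- assemble
  refine tt_of_walks hEXT k _ y hy (fun i j => if h : i < j then nn ⟨(i, j), h⟩ else 0)
    (fun i j => if h : i < j then p ⟨(i, j), h⟩ else fun _ => y i) ?_ ?_ ?_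
  · intro i j hij
    simp only [hij, dif_pos]
    exact hp1 ⟨(i, j), hij⟩
  · intro i j i' j' hij hij' hne s s' hs0 hs hs0' hs'
    simp only [hij, hij', dif_pos] at hs hs' ⊢
    refine hp2 ⟨(i, j), hij⟩ ⟨(i', j'), hij'⟩ ?_ s s' hs0 hs hs0' hs'
    intro he
    have he' := congrArg Subtype.val he
    rcases hne with h | h
    · exact h (congrArg Prod.fst he')
    · exact h (congrArg Prod.snd he')
  · intro i j hij m hmi hmj s hs0 hs
    simp only [hij, dif_pos] at hs ⊢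
    intro heq
    refine hp3 ⟨(i, j), hij⟩ s hs0 hs ?_
    rw [heq]
    exact mem_image_of_mem y (mem_filter.mpr ⟨mem_univ m, hmi, hmj⟩)

end Pool.MRP
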