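/-
helper74. MRP, module FLT: a flat scale of a decreasing sequence.
-/
import Pool.Agent.H74.MRP.Def

set_option autoImplicit false

namespace Pool.MRP

open Finset Pool.MRW
open scoped Classical

/-- FLT -/
theorem t_flt : FLTStmt := by
  intro σ c T l hσ0 hσm hc h2c hσc hT hl hbig
  by_contra hcon
  push Not at hcon
  -- the bound
  have key : ∀ m, 1 ≤ m → m ≤ 4 * l * T → σ m ≤ 5 / 4 * c * (4 / 5) ^ (m / T) := by
    intro m
    induction m using Nat.strong_induction_on with
    | _ m ih =>
      intro hm1 hmL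
      by_cases hmT : m ≤ T
      · have h1 : m / T ≤ 1 := by
          have : m / T ≤ T / T := Nat.div_le_div_right hmT
          rwa [Nat.div_self (by omega)] at this
        have h2 : (4 / 5 : ℝ) ^ 1 ≤ (4 / 5 : ℝ) ^ (m / T) :=
          pow_le_pow_of_le_one (by norm_num) (by norm_num) h1
        have h3 := hσc m hm1
        nlinarith
      · have hTm : T < m := not_le.mp hmT
        have hdiv : m / T = (m - T) / T + 1 := by
          have : m = (m - T) + T := by omega
          conv_lhs => rw [this]
          exact Nat.add_div_right _ (by omega)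
        by_cases hf : σ (m - T) ≤ 5 / 4 * σ m
        · obtain ⟨r, hr1, hr2, hr3⟩ := hcon m hTm hmL hf
          have i1 := ih r (by omega) hr1 (by omega)
          have i2 := ih (m - T - r) (by omega) (by omega) (by omega)
          have hfl : m / T ≤ r / T + (m - T - r) / T + 2 := by
            have a1 : m < T * (r / T + 1) + T * ((m - T - r) / T + 1) + T := by
              have b1 := Nat.lt_mul_div_succ r (show 0 < T by omega)
              have b2 := Nat.lt_mul_div_succ (m - T - r) (show 0 < T by omega)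
              omega
            have a2 : m < T * (r / T + (m - T - r) / T + 3) := by
              calc m < T * (r / T + 1) + T * ((m - T - r) / T + 1) + T := a1
                _ = T * (r / T + (m - T - r) / T + 3) := by ring
            have a3 : m / T < r / T + (m - T - r) / T + 3 :=
              Nat.div_lt_of_lt_mul a2
            omega
          have h3 : (4 / 5 : ℝ) ^ (r / T + (m - T - r) / T + 2) ≤ (4 / 5 : ℝ) ^ (m / T) :=
            pow_le_pow_of_le_one (by norm_num) (by norm_num) hfl
          have h4 : σ r * σ (m - T - r) ≤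
              (5 / 4 * c * (4 / 5) ^ (r / T)) * (5 / 4 * c * (4 / 5) ^ ((m - T - r) / T)) :=
            mul_le_mul i1 i2 (hσ0 _) (by positivity)
          have h5 : (5 / 4 * c * (4 / 5) ^ (r / T)) * (5 / 4 * c * (4 / 5) ^ ((m - T - r) / T)) =
              (5 / 4) ^ 4 * c ^ 2 * (4 / 5 : ℝ) ^ (r / T + (m - T - r) / T + 2) := by
            rw [pow_add, pow_add]; ring
          have h6 : 2 * c * σ m ≤ 2 * c * (5 / 4 * c * (4 / 5) ^ (m / T)) := by
            have h7 : 2 * c * σ m ≤ (5 / 4) ^ 4 * c ^ 2 * (4 / 5 : ℝ) ^ (m / T) := by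
              refine le_trans hr3.le (le_trans h4 ?_)
              rw [h5]
              exact mul_le_mul_of_nonneg_left h3 (by positivity)
            refine le_trans h7 ?_
            have h8 : 0 ≤ c ^ 2 * (4 / 5 : ℝ) ^ (m / T) := by positivity
            have e1 : (5 / 4 : ℝ) ^ 4 * c ^ 2 * (4 / 5 : ℝ) ^ (m / T) =
              (5 / 4 : ℝ) ^ 4 * (c ^ 2 * (4 / 5 : ℝ) ^ (m / T)) := by ring
            have e2 : 2 * c * (5 / 4 * c * (4 / 5 : ℝ) ^ (m / T)) =
              5 / 2 * (c ^ 2 * (4 / 5 : ℝ) ^ (m / T)) := by ring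
            rw [e1, e2]
            exact mul_le_mul_of_nonneg_right (by norm_num) h8
          exact le_of_mul_le_mul_left h6 (by linarith)
        · have hf' := not_le.mp hf
          have i1 := ih (m - T) (by omega) (by omega) (by omega)
          rw [hdiv, pow_succ]
          nlinarith
  have h1 : 1 ≤ l * T := Nat.mul_pos hl hT
  have hL := key (4 * l * T) (by nlinarith) (le_refl _)
  rw [Nat.mul_div_cancel _ (show 0 < T by omega)] at hL
  have h2 : (2 : ℝ) ^ l * σ (4 * l * T) ≤ 2 ^ l * (5 / 4 * c * (4 / 5) ^ (4 * l)) :=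
    mul_le_mul_of_nonneg_left hL (by positivity)
  have h3 : (2 : ℝ) ^ l * (5 / 4 * c * (4 / 5) ^ (4 * l)) =
      5 / 4 * c * (2 * (4 / 5) ^ 4) ^ l := by
    rw [mul_pow, ← pow_mul]; ring
  have h4 : (2 * (4 / 5 : ℝ) ^ 4) ^ l ≤ 1 := pow_le_one₀ (by norm_num) (by norm_num)
  rw [h3] at h2
  have h5 : 5 / 4 * c * (2 * (4 / 5 : ℝ) ^ 4) ^ l ≤ 5 / 4 * c * 1 :=
    mul_le_mul_of_nonneg_left h4 (by linarith)
  linarith

end Pool.MRP
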