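/-
helper74. MRP, module LVL: one level.
-/
import Pool.Agent.H74.MRP.Def

set_option autoImplicit false

namespace Pool.MRP

open Finset Pool.MRW
open scoped Classical

/-- LVL -/
theorem t_lvl (hPWS : PWSStmt) (hSIG : SIGStmt) (hGRT : GRTStmt) (hFLT : FLTStmt)
    (hSRV : SRVStmt) : LVLStmt := by
  intro Ω V _ _ pr tm c Q hQ l T e₀ hT hc hTc hl hN hsv
  have : Nonempty Ω := ⟨e₀⟩
  obtain ⟨p1, p2, p3, p4, p5, p6, p7, p8, p9⟩ := hPWS Ω Q hQ.nn hQ.row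
  obtain ⟨s1, s2, s3, s4, s5⟩ := hSIG Ω Q hQ.nn hQ.row
  obtain ⟨g1, g2⟩ := hGRT Ω V pr tm c Q hQ
  have hT1 : (1 : ℝ) ≤ T := by exact_mod_cast hT
  have h2c : 2 * c ≤ 1 := by nlinarith
  have hbig : 1 ≤ 2 ^ l * sg Q (4 * l * T) := by
    by_contra hcon
    have hlt : 2 ^ l * sg Q (4 * l * T) < 1 := not_le.mp hcon
    have hN' : 2 * (Fintype.card V : ℝ) ≤ 2 ^ l := by exact_mod_cast hN
    have h1 : 2 * (Fintype.card V : ℝ) * sg Q (4 * l * T) < 1 :=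
      lt_of_le_of_lt (mul_le_mul_of_nonneg_right hN' (s1 _)) hlt
    exact absurd (g2 _ e₀ h1) (not_lt.mpr hsv)
  obtain ⟨n, hTn, hnL, hf1, hf2⟩ := hFLT (sg Q) c T l s1 s4 hc h2c (fun n hn => s5 c hQ.le n hn)
    hT hl hbig
  obtain ⟨x, z, hxz⟩ := s3 n
  have hpos : 0 < sg Q n := by
    have h1 : 0 < sg Q (4 * l * T) := by
      by_contra hcon
      have : sg Q (4 * l * T) = 0 := le_antisymm (not_lt.mp hcon) (s1 _)
      rw [this, mul_zero] at hbig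
      linarith
    exact lt_of_lt_of_le h1 (s4 n _ hnL)
  have htz : tm z = tm x + n := g1 n x z (by rw [hxz]; exact hpos.ne')
  have hup : ∀ m, n - T ≤ m → ∀ e, pw Q m e z ≤ 5 / 4 * sg Q n := fun m hm e =>
    le_trans (s2 m e z) (le_trans (s4 _ _ hm) hf1)
  obtain ⟨y, hy1, hy2, hy3⟩ := hSRV Ω V pr tm c Q hQ x z n T (sg Q n) hT hTn hpos hTc hxz hup
  refine ⟨x, z, n, sg Q n, hpos, hTn, hnL, htz, hxz, ?_, y, hy1, hy2, hy3⟩
  intro e he m hm r hr0 hrm g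
  obtain ⟨r1, r2, r3, r4⟩ := he
  have hme : tm x + n - tm e = m := by omega
  rw [hme] at r4
  have hlow : 2 * c * sg Q n ≤ 4 * c * pw Q m e z := by nlinarith
  refine le_trans ?_ hlow
  by_cases hr : r + T + 1 ≤ n
  · refine le_trans ?_ (hf2 r hr0 hr)
    refine mul_le_mul (s2 r e g) ?_ (p1 _ _ _) (s1 _)
    exact le_trans (s2 _ _ _) (s4 _ _ (by omega))
  · have h1 : pw Q r e g ≤ 5 / 4 * sg Q n :=
      le_trans (s2 r e g) (le_trans (s4 _ _ (by omega)) hf1)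
    have h2 : pw Q (m - r) g z ≤ c := p8 c hQ.le (m - r) (by omega) g z
    calc pw Q r e g * pw Q (m - r) g z ≤ (5 / 4 * sg Q n) * c :=
          mul_le_mul h1 h2 (p1 _ _ _) (by linarith)
      _ ≤ 2 * c * sg Q n := by nlinarith [mul_pos hc hpos]

end Pool.MRP
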