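/-
helper74. MRP, module PLG: assembly.
-/
import Pool.Agent.H74.MRP.Def

set_option autoImplicit false

namespace Pool.MRP

open Finset Pool.MRW
open scoped Classical

/-- PLG -/
theorem t_plg (hHOR : HORStmt) (hBRG : BRGStmt) (hCRP : CRPStmt) (hSPT : SPTStmt) : PLGStmt := by
  intro k l d hk hd V _ _ A hA hN
  obtain ⟨H, hH⟩ : ∃ H, H = hor (l + 1) (k - 1) := ⟨_, rfl⟩
  obtain ⟨X, hX⟩ : ∃ X, X = (5 * (l + 1)) ^ (k - 1) := ⟨_, rfl⟩
  have hHX : H + 1 ≤ X := by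
    rw [hH, hX]
    exact hHOR (l + 1) (k - 1) (by omega)
  have hd' : 27 * k ^ 4 * X ^ 2 ≤ d := by
    rw [hX, ← pow_mul, mul_comm (k - 1) 2]
    exact hd
  have hX1 : 1 ≤ X := by omega
  have hk4 : 1 ≤ k ^ 4 := Nat.pow_pos hk
  have hd1 : 1 ≤ d := by
    refine le_trans ?_ hd'
    have : 1 ≤ X ^ 2 := Nat.pow_pos hX1
    nlinarith [Nat.mul_le_mul hk4 this]
  have hdR : (0 : ℝ) < d := by exact_mod_cast hd1
  have hc : 0 < 1 / (d : ℝ) := by positivity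
  have hkR : (1 : ℝ) ≤ (k : ℝ) ^ 4 := by exact_mod_cast hk4
  have hXR : (1 : ℝ) ≤ X := by exact_mod_cast hX1
  have hHXR : (H : ℝ) + 1 ≤ X := by exact_mod_cast hHX
  have hH0 : (0 : ℝ) ≤ H := Nat.cast_nonneg _
  have hdR' : 27 * (k : ℝ) ^ 4 * (X : ℝ) ^ 2 ≤ d := by exact_mod_cast hd'
  obtain ⟨Q, e₀, hQ, hQA, hsv⟩ := hSPT V A d H hd1 hA
  have h6 : 6 * ((hor (l + 1) (k - 1) : ℝ) + 1) * (1 / (d : ℝ)) ≤ 1 := by
    rw [← hH, mul_one_div, div_le_one hdR]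
    refine le_trans ?_ hdR'
    have h1 : 6 * ((H : ℝ) + 1) ≤ 27 * 1 * ((X : ℝ) ^ 2) := by nlinarith
    refine le_trans h1 ?_
    refine mul_le_mul_of_nonneg_right ?_ (by positivity)
    linarith
  obtain ⟨u, hu1, hu2⟩ := hBRG (V × Fin (H + 1)) V _ _ (1 / (d : ℝ)) (l + 1) hc (by omega)
    (by rw [pow_succ]; omega) (k - 1) Q hQ h6 e₀ (by rw [← hH, hsv]; norm_num)
  refine hCRP (V × Fin (H + 1)) V _ _ (1 / (d : ℝ)) Q A hQ hQA k H u hk hc ?_ ?_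
  · rw [mul_one_div, div_le_one hdR]
    refine le_trans ?_ hdR'
    refine mul_le_mul_of_nonneg_left ?_ (by positivity)
    exact pow_le_pow_left₀ hH0 (by linarith) 2
  · intro i j hij hj
    have := hu2 i j hij (by omega)
    rw [← hH] at this
    exact this

end Pool.MRP
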