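/-
helper74. MRP, modules PWS and SIG: powers of a substochastic kernel.
-/
import Pool.Agent.H74.MRP.Def
import Pool.Agent.H20.MRW.PWB

set_option autoImplicit false

namespace Pool.MRP

open Finset Pool.MRW
open scoped Classical

/-- PWS -/
theorem t_pws : PWSStmt := by
  intro Ω _ Q hn hr
  have hnn := H20.pw_nn hn
  have hrow := H20.pw_row hn hr
  refine ⟨hnn, H20.pw_zero Q, H20.pw_succ Q, H20.pw_one Q, H20.pw_add Q, hrow, ?_, ?_, ?_⟩
  · intro m n e hmn
    obtain ⟨j, rfl⟩ : ∃ j, n = m + j := ⟨n - m, by omega⟩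
    unfold sv
    simp only [H20.pw_add Q m j e]
    rw [sum_comm]
    refine sum_le_sum fun a _ => ?_
    rw [← mul_sum]
    calc pw Q m e a * ∑ f, pw Q j a f ≤ pw Q m e a * 1 :=
          mul_le_mul_of_nonneg_left (hrow j a) (hnn m e a)
      _ = pw Q m e a := mul_one _
  · intro c hc n hn1 e f
    obtain ⟨m, rfl⟩ : ∃ m, n = m + 1 := ⟨n - 1, by omega⟩
    have hc0 : 0 ≤ c := (hn e f).trans (hc e f)
    rw [H20.pw_add]
    calc ∑ w, pw Q m e w * pw Q 1 w f ≤ ∑ w, pw Q m e w * c :=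
          sum_le_sum fun w _ => mul_le_mul_of_nonneg_left
            (by rw [H20.pw_one]; exact hc w f) (hnn m e w)
      _ = (∑ w, pw Q m e w) * c := by rw [sum_mul]
      _ ≤ 1 * c := mul_le_mul_of_nonneg_right (hrow m e) hc0
      _ = c := one_mul c
  · intro n e f h
    rw [H20.pw_add] at h
    obtain ⟨a, _, ha⟩ := exists_lt_of_sum_lt (s := univ) (f := fun _ => (0 : ℝ))
      (g := fun a => pw Q n e a * pw Q 1 a f) (by simpa using h)
    refine ⟨a, ?_⟩
    rw [H20.pw_one] at ha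
    by_contra hc
    have h0 : Q a f = 0 := le_antisymm (not_lt.mp hc) (hn a f)
    rw [h0, mul_zero] at ha
    exact lt_irrefl _ ha

/-- SIG -/
theorem t_sig (hPWS : PWSStmt) : SIGStmt := by
  intro Ω _ _ Q hn hr
  obtain ⟨h1, h2, h3, h4, h5, h6, h7, h8, h9⟩ := hPWS Ω Q hn hr
  have hbdd : ∀ n, BddAbove (Set.range (fun e : Ω × Ω => pw Q n e.1 e.2)) := fun n =>
    Set.Finite.bddAbove (Set.finite_range _)
  have hle : ∀ n e f, pw Q n e f ≤ sg Q n := fun n e f =>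
    le_ciSup (hbdd n) (e, f)
  have hat : ∀ n, ∃ e f, pw Q n e f = sg Q n := by
    intro n
    obtain ⟨e, he⟩ := exists_eq_ciSup_of_finite (f := fun e : Ω × Ω => pw Q n e.1 e.2)
    exact ⟨e.1, e.2, he⟩
  have h0 : ∀ n, 0 ≤ sg Q n := by
    intro n
    obtain ⟨e, f, he⟩ := hat n
    rw [← he]
    exact h1 n e f
  refine ⟨h0, hle, hat, ?_, ?_⟩
  · intro m n hmn
    obtain ⟨j, rfl⟩ : ∃ j, n = j + m := ⟨n - m, by omega⟩
    obtain ⟨e, f, he⟩ := hat (j + m)
    rw [← he, h5]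
    calc ∑ a, pw Q j e a * pw Q m a f ≤ ∑ a, pw Q j e a * sg Q m :=
          sum_le_sum fun a _ => mul_le_mul_of_nonneg_left (hle m a f) (h1 j e a)
      _ = (∑ a, pw Q j e a) * sg Q m := by rw [sum_mul]
      _ ≤ 1 * sg Q m := mul_le_mul_of_nonneg_right (h6 j e) (h0 m)
      _ = sg Q m := one_mul _
  · intro c hc n hn1
    obtain ⟨e, f, he⟩ := hat n
    rw [← he]
    exact h8 c hc n hn1 e f

end Pool.MRP
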