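/-
helper74. MRP, modules RKG and HOR.
-/
import Pool.Agent.H74.MRP.Def

set_option autoImplicit false

namespace Pool.MRP

open Finset Pool.MRW
open scoped Classical

/-- RKG -/
theorem t_rkg : RKGStmt := by
  intro Ω V _ pr tm c Q G hQ
  have hle : ∀ e f, rk G Q e f ≤ Q e f := by
    intro e f
    unfold rk
    split_ifs
    · exact le_refl _
    · exact hQ.nn e f
  have hnn : ∀ e f, 0 ≤ rk G Q e f := by
    intro e f
    unfold rk
    split_ifs
    · exact hQ.nn e f
    · exact le_refl _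
  have hmono : ∀ Q' : Ω → Ω → ℝ, (∀ e f, 0 ≤ Q' e f ∧ Q' e f ≤ Q e f) → Gr pr tm c Q' := by
    intro Q' h
    refine ⟨fun e f => (h e f).1, fun e => le_trans (sum_le_sum fun f _ => (h e f).2) (hQ.row e),
      fun e f => le_trans (h e f).2 (hQ.le e f), ?_, hQ.inj⟩
    intro e f hne
    refine hQ.grd e f ?_
    have h0 : 0 < Q' e f := lt_of_le_of_ne (h e f).1 (Ne.symm hne)
    exact (lt_of_lt_of_le h0 (h e f).2).ne'
  refine ⟨hmono _ (fun e f => ⟨hnn e f, hle e f⟩), hle, ?_, hmono⟩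
  intro e f h
  by_contra hc
  unfold rk at h
  rw [if_neg hc] at h
  exact lt_irrefl _ h

/-- HOR -/
theorem t_hor : HORStmt := by
  intro l k hl
  induction k with
  | zero => simp [hor]
  | succ k ih =>
    have h1 : 1 ≤ l * (5 * l) ^ k := Nat.mul_pos hl (Nat.pow_pos (by omega))
    calc hor l (k + 1) + 1 = 4 * l * (hor l k + 1) + 1 := rfl
      _ ≤ 4 * l * (5 * l) ^ k + l * (5 * l) ^ k := Nat.add_le_add (Nat.mul_le_mul_left _ ih) h1
      _ = (5 * l) ^ (k + 1) := by ring

end Pool.MRP
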