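/-
helper74. MRP, module SPT: the space-time kernel of a digraph.
-/
import Pool.Agent.H74.MRP.Def

set_option autoImplicit false

namespace Pool.MRP

open Finset Pool.MRW
open scoped Classical

/-- SPT -/
theorem t_spt : SPTStmt := by
  intro V _ _ A d H hd hA
  obtain ⟨v₀⟩ := ‹Nonempty V›
  let od : V → ℕ := fun u => {w : V | A u w}.ncard
  have hod : ∀ u, (0 : ℝ) < od u := by
    intro u
    have : 0 < od u := lt_of_lt_of_le hd (hA u)
    exact_mod_cast this
  have hdR : (0 : ℝ) < d := by exact_mod_cast hd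
  have hodd : ∀ u, (d : ℝ) ≤ od u := fun u => by exact_mod_cast hA u
  let Q : V × Fin (H + 1) → V × Fin (H + 1) → ℝ := fun e f =>
    if A e.1 f.1 ∧ (f.2 : ℕ) = (e.2 : ℕ) + 1 then 1 / (od e.1 : ℝ) else 0
  have hrow : ∀ (G : V × Fin (H + 1) → ℝ) (e : V × Fin (H + 1)) (he : (e.2 : ℕ) + 1 < H + 1),
      ∑ f, Q e f * G f = ∑ w ∈ univ.filter (fun w => A e.1 w),
        1 / (od e.1 : ℝ) * G (w, ⟨(e.2 : ℕ) + 1, he⟩) := by
    intro G e he
    rw [Fintype.sum_prod_type, sum_filter]
    refine sum_congr rfl fun w _ => ?_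
    rw [sum_eq_single (⟨(e.2 : ℕ) + 1, he⟩ : Fin (H + 1))]
    · show (if A e.1 w ∧ (e.2 : ℕ) + 1 = (e.2 : ℕ) + 1 then 1 / (od e.1 : ℝ) else 0) * _ = _
      by_cases hw : A e.1 w
      · rw [if_pos ⟨hw, rfl⟩, if_pos hw]
      · rw [if_neg (fun h => hw h.1), if_neg hw, zero_mul]
    · intro t _ ht
      show (if A e.1 w ∧ (t : ℕ) = (e.2 : ℕ) + 1 then 1 / (od e.1 : ℝ) else 0) * _ = _
      rw [if_neg, zero_mul]
      rintro ⟨_, h⟩
      exact ht (Fin.ext h)
    · intro h
      exact absurd (mem_univ _) h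
  have hcard : ∀ u, ((univ.filter (fun w => A u w)).card : ℝ) = od u := by
    intro u
    have : {w : V | A u w}.ncard = (univ.filter (fun w => A u w)).card := by
      rw [← Set.ncard_coe_finset]
      congr 1
      ext w
      simp
    show ((univ.filter (fun w => A u w)).card : ℝ) = (({w : V | A u w}.ncard : ℕ) : ℝ)
    rw [this]
  have hrow1 : ∀ e : V × Fin (H + 1), (e.2 : ℕ) + 1 < H + 1 → ∑ f, Q e f = 1 := by
    intro e he
    have := hrow (fun _ => 1) e he
    simp only [mul_one] at this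
    rw [this, sum_const, nsmul_eq_mul, hcard, mul_one_div, div_self (hod e.1).ne']
  have hnn : ∀ e f, 0 ≤ Q e f := by
    intro e f
    show 0 ≤ if A e.1 f.1 ∧ (f.2 : ℕ) = (e.2 : ℕ) + 1 then 1 / (od e.1 : ℝ) else 0
    split_ifs
    · exact (one_div_pos.mpr (hod e.1)).le
    · exact le_refl _
  refine ⟨Q, (v₀, ⟨0, by omega⟩), ⟨hnn, ?_, ?_, ?_, ?_⟩, ?_, ?_⟩
  · intro e
    by_cases he : (e.2 : ℕ) + 1 < H + 1
    · exact (hrow1 e he).le
    · have : ∑ f, Q e f = 0 := by
        refine sum_eq_zero fun f _ => ?_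
        show (if A e.1 f.1 ∧ (f.2 : ℕ) = (e.2 : ℕ) + 1 then 1 / (od e.1 : ℝ) else 0) = 0
        rw [if_neg]
        rintro ⟨_, h⟩
        have := f.2.2
        omega
      rw [this]
      exact zero_le_one
  · intro e f
    show (if A e.1 f.1 ∧ (f.2 : ℕ) = (e.2 : ℕ) + 1 then 1 / (od e.1 : ℝ) else 0) ≤ 1 / (d : ℝ)
    split_ifs
    · exact one_div_le_one_div_of_le hdR (hodd e.1)
    · exact (one_div_pos.mpr hdR).le
  · intro e f hne
    by_contra hcon
    refine hne ?_
    show (if A e.1 f.1 ∧ (f.2 : ℕ) = (e.2 : ℕ) + 1 then 1 / (od e.1 : ℝ) else 0) = 0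
    rw [if_neg]
    rintro ⟨_, h⟩
    exact hcon h
  · intro e f h1 h2
    exact Prod.ext h1 (Fin.ext h2)
  · intro e f h
    by_contra hcon
    have : Q e f = 0 := by
      show (if A e.1 f.1 ∧ (f.2 : ℕ) = (e.2 : ℕ) + 1 then 1 / (od e.1 : ℝ) else 0) = 0
      rw [if_neg]
      rintro ⟨h', _⟩
      exact hcon h'
    rw [this] at h
    exact lt_irrefl _ h
  · have hsv : ∀ (n : ℕ) (e : V × Fin (H + 1)), (e.2 : ℕ) + n ≤ H → sv Q n e = 1 := by
      intro n
      induction n with
      | zero =>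
        intro e _
        unfold sv
        have : ∀ f, pw Q 0 e f = if e = f then 1 else 0 := by
          intro f
          simp only [pw, W]
        simp only [this]
        simp
      | succ n ih =>
        intro e he
        have h1 : sv Q (n + 1) e = ∑ a, Q e a * sv Q n a := by
          unfold sv
          have : ∀ f, pw Q (n + 1) e f = ∑ a, Q e a * pw Q n a f := fun f => rfl
          simp only [this]
          rw [sum_comm]
          refine sum_congr rfl fun a _ => ?_
          rw [mul_sum]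
        have he' : (e.2 : ℕ) + 1 < H + 1 := by omega
        rw [h1, hrow (fun a => sv Q n a) e he']
        have h2 : ∀ w : V, sv Q n (w, ⟨(e.2 : ℕ) + 1, he'⟩) = 1 := fun w =>
          ih (w, ⟨(e.2 : ℕ) + 1, he'⟩) (by
            show (e.2 : ℕ) + 1 + n ≤ H
            omega)
        simp only [h2, mul_one]
        rw [sum_const, nsmul_eq_mul, hcard, mul_one_div, div_self (hod e.1).ne']
    exact hsv H (v₀, ⟨0, by omega⟩) (by simp)

end Pool.MRP
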